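import Pool.Agent.W761.CB.Stms
import Pool.Agent.W975.CB.Ms
import Pool.Agent.W366.CB.Lam
import Pool.Agent.W417.CB.Ebc

/-! CB-W2: the Weyl operators are isometries -/

set_option autoImplicit false

open MeasureTheory
open scoped ENNReal ComplexConjugate

namespace Pool.Agent.W174.CB

open Pool.Agent.W761.CB

noncomputable section

variable {X : Type}

/-- multiplicative functional -/
def pw (f : X → ℂ) (S : Multiset X) : ℂ := (S.map f).prod

theorem pw_add (f : X → ℂ) (A B : Multiset X) : pw f (A + B) = pw f A * pw f B := by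
  unfold pw
  rw [Multiset.map_add, Multiset.prod_add]

theorem pw_mul (f g : X → ℂ) (A : Multiset X) :
    pw (fun x => f x * g x) A = pw f A * pw g A := by
  unfold pw
  exact Multiset.prod_map_mul

theorem pw_conj (f : X → ℂ) (A : Multiset X) :
    (starRingEnd ℂ) (pw f A) = pw (fun x => (starRingEnd ℂ) (f x)) A := by
  unfold pw
  rw [map_multiset_prod, Multiset.map_map]
  rfl

theorem pw_sum (f g : X → ℂ) (S : Multiset X) :
    pw (fun x => f x + g x) S = (S.antidiagonal.map fun p => pw f p.1 * pw g p.2).sum := by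
  unfold pw
  exact Multiset.prod_map_add

/-- the decompositions of a sum -/
theorem anti_add {M : Type*} [AddCommMonoid M] (S T : Multiset X) :
    ∀ φ : Multiset X → Multiset X → M, ((S + T).antidiagonal.map fun p => φ p.1 p.2).sum =
      (S.antidiagonal.map fun p =>
        (T.antidiagonal.map fun q => φ (p.1 + q.1) (p.2 + q.2)).sum).sum := by
  induction T using Multiset.induction_on with
  | empty => intro φ; simp
  | cons x T ih =>
    intro φ
    rw [Multiset.add_cons, Multiset.antidiagonal_cons, Multiset.map_add, Multiset.sum_add,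
      Multiset.map_map, Multiset.map_map]
    have h1 := ih (fun A B => φ A (x ::ₘ B))
    have h2 := ih (fun A B => φ (x ::ₘ A) B)
    simp only [Function.comp_def, Prod.map_fst, Prod.map_snd, id] at h1 h2 ⊢
    rw [h1, h2, ← Multiset.sum_map_add]
    congr 1
    apply Multiset.map_congr rfl
    intro p _
    rw [Multiset.antidiagonal_cons, Multiset.map_add, Multiset.sum_add,
      Multiset.map_map, Multiset.map_map]
    simp only [Function.comp_def, Prod.map_fst, Prod.map_snd, id, Multiset.add_cons]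

theorem exists_ms (S : Multiset X) : ∃ γ : Cf X, ms γ = S := by
  refine ⟨⟨S.toList.length, S.toList.get⟩, ?_⟩
  unfold ms
  rw [List.ofFn_get, Multiset.coe_toList]

section
variable [MeasurableSpace X]

/-- the conclusion of `S_MS` for products -/
theorem pw_meas {f : X → ℂ} (hf : Measurable f) : Measurable (fun γ : Cf X => pw f (ms γ)) := by
  have h := (Pool.Agent.W975.CB.proof_ms X).2.2.1 Unit (fun _ => f) (hf.comp measurable_snd)
  exact h.comp (measurable_const.prodMk measurable_id : Measurable fun γ : Cf X => ((), γ))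

theorem pw_norm {f : X → ℂ} {K : ℝ} (hK : 0 ≤ K) (hf : ∀ x, ‖f x‖ ≤ K) (S : Multiset X) :
    ‖pw f S‖ ≤ K ^ Multiset.card S :=
  Pool.Agent.W366.CB.norm_prod f K hK hf S

theorem pw_eb {f : X → ℂ} (hf : Measurable f) (hb : ∃ K : ℝ, ∀ x, ‖f x‖ ≤ K) : EB (pw f) := by
  obtain ⟨K, hK⟩ := hb
  refine ⟨pw_meas hf, 1, max K 1, zero_le_one, le_max_right _ _, ?_⟩
  intro S
  rw [one_mul]
  exact pw_norm (by positivity) (fun x => (hK x).trans (le_max_left _ _)) S

/-- exponentially bounded functions of two configurations -/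
structure HB (h : Multiset X → Multiset X → ℂ) : Prop where
  meas : Measurable (fun p : Cf X × Cf X => h (ms p.1) (ms p.2))
  bdd : ∃ C c : ℝ, 0 ≤ C ∧ 0 ≤ c ∧
      ∀ A B, ‖h A B‖ ≤ C * c ^ (Multiset.card A + Multiset.card B)

theorem HB.mul {h k : Multiset X → Multiset X → ℂ} (hh : HB h) (hk : HB k) :
    HB (fun A B => h A B * k A B) := by
  obtain ⟨C, c, hC, hc, h1⟩ := hh.bdd
  obtain ⟨D, d, hD, hd, h2⟩ := hk.bdd
  refine ⟨hh.meas.mul hk.meas, C * D, c * d, by positivity, by positivity, ?_⟩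
  intro A B
  rw [norm_mul, mul_pow]
  calc ‖h A B‖ * ‖k A B‖ ≤ (C * c ^ (Multiset.card A + Multiset.card B)) *
        (D * d ^ (Multiset.card A + Multiset.card B)) :=
        mul_le_mul (h1 A B) (h2 A B) (norm_nonneg _) (by positivity)
    _ = _ := by ring

theorem HB.conj {h : Multiset X → Multiset X → ℂ} (hh : HB h) :
    HB (fun A B => (starRingEnd ℂ) (h A B)) := by
  obtain ⟨C, c, hC, hc, h1⟩ := hh.bdd
  refine ⟨Complex.continuous_conj.measurable.comp hh.meas, C, c, hC, hc, ?_⟩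
  intro A B
  rw [RCLike.norm_conj]
  exact h1 A B

theorem HB.fst {F : Multiset X → ℂ} (hF : EB F) : HB (fun A _ => F A) := by
  obtain ⟨C, c, hC, hc, h1⟩ := hF.bdd
  refine ⟨hF.meas.comp measurable_fst, C, c, hC, by linarith, ?_⟩
  intro A B
  refine (h1 A).trans (mul_le_mul_of_nonneg_left ?_ hC)
  exact pow_le_pow_right₀ hc (Nat.le_add_right _ _)

theorem HB.snd {F : Multiset X → ℂ} (hF : EB F) : HB (fun _ B => F B) := by
  obtain ⟨C, c, hC, hc, h1⟩ := hF.bdd
  refine ⟨hF.meas.comp measurable_snd, C, c, hC, by linarith, ?_⟩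
  intro A B
  refine (h1 B).trans (mul_le_mul_of_nonneg_left ?_ hC)
  exact pow_le_pow_right₀ hc (Nat.le_add_left _ _)

variable (ν : Measure X) [IsFiniteMeasure ν]

theorem add_meas {F : Multiset X → ℂ} (hF : EB F) :
    Measurable (fun p : Cf X × Cf X => F (ms p.1 + ms p.2)) :=
  (Pool.Agent.W417.CB.proof_ebc Pool.Agent.W975.CB.proof_ms
    (Pool.Agent.W366.CB.proof_lam Pool.Agent.W975.CB.proof_ms) X (0 : Measure X) F F hF hF).2.2.2.2.2.2.1

omit [IsFiniteMeasure ν] in
theorem HB.add {F : Multiset X → ℂ} (hF : EB F) : HB (fun A B => F (A + B)) := by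
  obtain ⟨C, c, hC, hc, h1⟩ := hF.bdd
  refine ⟨add_meas hF, C, c, hC, by linarith, ?_⟩
  intro A B
  have := h1 (A + B)
  rwa [Multiset.card_add] at this

theorem shift_eb {F : Multiset X → ℂ} (hF : EB F) (S : Multiset X) : EB (fun T => F (S + T)) := by
  obtain ⟨C, c, hC, hc, h1⟩ := hF.bdd
  obtain ⟨γ, hγ⟩ := exists_ms S
  refine ⟨?_, C * c ^ Multiset.card S, c, by positivity, hc, ?_⟩
  · have h2 := (add_meas hF).comp
      (measurable_const.prodMk measurable_id : Measurable fun γ' : Cf X => (γ, γ'))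
    simp only [Function.comp_def, hγ] at h2
    exact h2
  · intro T
    have := h1 (S + T)
    rw [Multiset.card_add, pow_add] at this
    linarith

end

/-- sums over decompositions of the same configuration -/
theorem anti_congr {M : Type*} [AddCommMonoid M] (S : Multiset X) (h k : Multiset X → Multiset X → M)
    (e : ∀ A B, A + B = S → h A B = k A B) :
    (S.antidiagonal.map fun p => h p.1 p.2).sum = (S.antidiagonal.map fun p => k p.1 p.2).sum := by
  congr 1
  apply Multiset.map_congr rfl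
  intro p hp
  exact e _ _ (Multiset.mem_antidiagonal.mp hp)

theorem int_msum {α ι : Type*} [MeasurableSpace α] {μ : Measure α} (f : ι → α → ℂ)
    (s : Multiset ι) : (∀ i ∈ s, Integrable (f i) μ) →
    Integrable (fun a => (s.map fun i => f i a).sum) μ ∧
    ∫ a, (s.map fun i => f i a).sum ∂μ = (s.map fun i => ∫ a, f i a ∂μ).sum := by
  induction s using Multiset.induction_on with
  | empty => intro _; simp
  | cons i s ih =>
    intro h
    obtain ⟨h1, h2⟩ := ih (fun j hj => h j (Multiset.mem_cons_of_mem hj))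
    have h3 := h i (Multiset.mem_cons_self i s)
    simp only [Multiset.map_cons, Multiset.sum_cons]
    exact ⟨h3.add h1, by rw [integral_add h3 h1, h2]⟩

section
variable [MeasurableSpace X] (ν : Measure X) [IsFiniteMeasure ν]

omit [IsFiniteMeasure ν] in
theorem lamS : S_LAM := Pool.Agent.W366.CB.proof_lam Pool.Agent.W975.CB.proof_ms

theorem const_eb (a : ℂ) : EB (fun _ : Multiset X => a) := by
  refine ⟨measurable_const, ‖a‖, 1, norm_nonneg _, le_refl _, ?_⟩
  intro S
  simp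

theorem conj_eb {F : Multiset X → ℂ} (hF : EB F) : EB (fun S => (starRingEnd ℂ) (F S)) := by
  obtain ⟨C, c, hC, hc, h1⟩ := hF.bdd
  refine ⟨Complex.continuous_conj.measurable.comp hF.meas, C, c, hC, hc, ?_⟩
  intro S
  rw [RCLike.norm_conj]
  exact h1 S

theorem ad_int (hAD : S_AD) {h : Multiset X → Multiset X → ℂ} (hh : HB h) :
    Integrable (fun p : Cf X × Cf X => h (ms p.1) (ms p.2)) ((lam ν).prod (lam ν)) ∧
    Integrable (fun γ => ((ms γ).antidiagonal.map fun s => h s.1 s.2).sum) (lam ν) ∧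
    ∫ γ, ((ms γ).antidiagonal.map fun s => h s.1 s.2).sum ∂(lam ν) =
      ∫ γ, ∫ γ', h (ms γ) (ms γ') ∂(lam ν) ∂(lam ν) := (hAD X ν).2 h hh.meas hh.bdd

/-- `Q_g Q_h = Q_{g+h}` -/
theorem qq_qq (hAD : S_AD) {g h : X → ℂ} (hg : Measurable g) (hgb : ∃ K : ℝ, ∀ x, ‖g x‖ ≤ K)
    (hh : Measurable h) (hhb : ∃ K : ℝ, ∀ x, ‖h x‖ ≤ K) {F : Multiset X → ℂ} (hF : EB F)
    (S : Multiset X) : QQ ν g (QQ ν h F) S = QQ ν (fun x => g x + h x) F S := by
  have hHB : HB (fun A B => pw g A * (pw h B * F (S + (A + B)))) :=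
    (HB.fst (pw_eb hg hgb)).mul ((HB.snd (pw_eb hh hhb)).mul (HB.add (shift_eb hF S)))
  have e := (ad_int ν hAD hHB).2.2
  have e1 : QQ ν g (QQ ν h F) S =
      ∫ γ, ∫ γ', pw g (ms γ) * (pw h (ms γ') * F (S + (ms γ + ms γ'))) ∂(lam ν) ∂(lam ν) := by
    unfold QQ
    congr 1
    funext γ
    rw [← integral_const_mul]
    congr 1
    funext γ'
    rw [add_assoc]
    rfl
  rw [e1, ← e]
  unfold QQ
  congr 1
  funext γ
  have e2 := anti_congr (ms γ) (fun A B => pw g A * (pw h B * F (S + (A + B))))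
    (fun A B => pw g A * pw h B * F (S + ms γ)) (by
      intro A B hAB
      rw [hAB]
      ring)
  refine e2.trans ?_
  rw [Multiset.sum_map_mul_right, ← pw_sum]
  rfl

/-- `Q_0 = 1` -/
theorem qq_zero (F : Multiset X → ℂ) (S : Multiset X) : QQ ν (fun _ => (0 : ℂ)) F S = F S := by
  have h0 := ((lamS X ν).2.2.2.2.2 (fun _ => (0 : ℂ)) measurable_const ⟨0, by simp⟩).2
  simp only [integral_zero, Complex.exp_zero] at h0
  have h1 : QQ ν (fun _ => (0 : ℂ)) F S =
      ∫ γ, ((ms γ).map (fun _ => (0 : ℂ))).prod * F S ∂(lam ν) := by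
    unfold QQ
    congr 1
    funext γ
    rcases Multiset.empty_or_exists_mem (ms γ) with h | ⟨a, ha⟩
    · rw [h]; simp
    · have h2 : ((ms γ).map (fun _ => (0 : ℂ))).prod = 0 := by
        apply Multiset.prod_eq_zero
        exact Multiset.mem_map.mpr ⟨a, ha, rfl⟩
      rw [h2]; simp
  rw [h1, integral_mul_const, h0, one_mul]

omit [MeasurableSpace X] in
/-- auxiliary function -/
def tp (f g : X → ℂ) (G : Multiset X → ℂ) (p : Multiset X × Multiset X) (A B : Multiset X) : ℂ :=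
  pw f p.1 * ((pw g A * pw f A) * (pw g B * G (p.2 + B)))

/-- auxiliary sum -/
def tps (f g : X → ℂ) (G : Multiset X → ℂ) (p : Multiset X × Multiset X) (η : Cf X) : ℂ :=
  ((ms η).antidiagonal.map fun q => tp f g G p q.1 q.2).sum

/-- `Q_g P_f = exp (∫ g f) P_f Q_g` -/
theorem qq_pp (hAD : S_AD) {f g : X → ℂ} (hf : Measurable f) (hfb : ∃ K : ℝ, ∀ x, ‖f x‖ ≤ K)
    (hg : Measurable g) (hgb : ∃ K : ℝ, ∀ x, ‖g x‖ ≤ K) {G : Multiset X → ℂ} (hG : EB G)
    (S : Multiset X) :
    QQ ν g (PP f G) S = Complex.exp (∫ x, g x * f x ∂ν) * PP f (QQ ν g G) S := by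
  have hHB : ∀ p : Multiset X × Multiset X, HB (tp f g G p) := by
    intro p
    refine (HB.fst (const_eb (pw f p.1))).mul (((HB.fst (pw_eb hg hgb)).mul (HB.fst (pw_eb hf hfb))).mul
      ((HB.snd (pw_eb hg hgb)).mul (HB.snd (shift_eb hG p.2))))
  have e1 : QQ ν g (PP f G) S = ∫ η, (S.antidiagonal.map fun p =>
      tps f g G p η).sum ∂(lam ν) := by
    unfold QQ
    congr 1
    funext η
    unfold PP
    have e2 := anti_add S (ms η) (fun A B => pw f A * G B)
    have e3 : ((S + ms η).antidiagonal.map fun p => (p.1.map f).prod * G p.2).sum =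
        ((S + ms η).antidiagonal.map fun p => pw f p.1 * G p.2).sum := rfl
    rw [e3, e2, ← Multiset.sum_map_mul_left]
    congr 1
    apply Multiset.map_congr rfl
    intro p _
    rw [← Multiset.sum_map_mul_left]
    apply anti_congr (ms η) (fun A B => ((ms η).map g).prod * (pw f (p.1 + A) * G (p.2 + B)))
      (fun A B => tp f g G p A B)
    intro A B hAB
    have e4 : ((ms η).map g).prod = pw g A * pw g B := by
      rw [← pw_add, hAB]
      rfl
    rw [e4, pw_add]
    unfold tp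
    ring
  have e5' : ∀ p ∈ S.antidiagonal, Integrable (tps f g G p) (lam ν) :=
    fun p _ => (ad_int ν hAD (hHB p)).2.1
  have e5 := int_msum (μ := lam ν) (tps f g G) S.antidiagonal e5'
  rw [e1, e5.2]
  unfold PP
  rw [← Multiset.sum_map_mul_left]
  congr 1
  apply Multiset.map_congr rfl
  intro p _
  have e9 : ∫ η, tps f g G p η ∂(lam ν) =
      ∫ γ, ∫ γ', tp f g G p (ms γ) (ms γ') ∂(lam ν) ∂(lam ν) := (ad_int ν hAD (hHB p)).2.2
  rw [e9]
  have hgf : Measurable (fun x => g x * f x) := hg.mul hf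
  have hgfb : ∃ K : ℝ, ∀ x, ‖g x * f x‖ ≤ K := by
    obtain ⟨K1, h1⟩ := hgb
    obtain ⟨K2, h2⟩ := hfb
    refine ⟨K1 * K2, fun x => ?_⟩
    rw [norm_mul]
    exact mul_le_mul (h1 x) (h2 x) (norm_nonneg _) ((norm_nonneg _).trans (h1 x))
  have e6 := ((lamS X ν).2.2.2.2.2 (fun x => g x * f x) hgf hgfb).2
  rw [← e6]
  have e7 : ∀ γ : Cf X, ∫ γ', tp f g G p (ms γ) (ms γ') ∂(lam ν) =
      ((ms γ).map fun x => g x * f x).prod * (pw f p.1 * QQ ν g G p.2) := by
    intro γ
    unfold tp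
    rw [integral_const_mul, integral_const_mul]
    have e8 : ((ms γ).map fun x => g x * f x).prod = pw g (ms γ) * pw f (ms γ) := pw_mul g f (ms γ)
    rw [e8]
    show pw f p.1 * (pw g (ms γ) * pw f (ms γ) * QQ ν g G p.2) = _
    ring
  simp only [e7]
  rw [integral_mul_const]
  rfl

/-- scalar product -/
def ip (G H : Multiset X → ℂ) : ℂ := ∫ γ, (starRingEnd ℂ) (H (ms γ)) * G (ms γ) ∂(lam ν)

/-- the adjoint of `P_f` -/
theorem ip_pp (hAD : S_AD) {f : X → ℂ} (hf : Measurable f) (hfb : ∃ K : ℝ, ∀ x, ‖f x‖ ≤ K)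
    {G H : Multiset X → ℂ} (hG : EB G) (hH : EB H) :
    ip ν (PP f G) H = ip ν G (QQ ν (fun x => (starRingEnd ℂ) (f x)) H) := by
  have hHB : HB (fun A B => pw f A * (G B * (starRingEnd ℂ) (H (A + B)))) :=
    (HB.fst (pw_eb hf hfb)).mul ((HB.snd hG).mul (HB.add hH).conj)
  have e := ad_int ν hAD hHB
  haveI : IsFiniteMeasure (lam ν) := (lamS X ν).2.1
  have e1 : ip ν (PP f G) H = ∫ γ, ((ms γ).antidiagonal.map fun s =>
      pw f s.1 * (G s.2 * (starRingEnd ℂ) (H (s.1 + s.2)))).sum ∂(lam ν) := by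
    unfold ip
    congr 1
    funext γ
    unfold PP
    rw [← Multiset.sum_map_mul_left]
    apply anti_congr (ms γ) (fun A B => (starRingEnd ℂ) (H (ms γ)) * ((A.map f).prod * G B))
      (fun A B => pw f A * (G B * (starRingEnd ℂ) (H (A + B))))
    intro A B hAB
    rw [hAB]
    show (starRingEnd ℂ) (H (ms γ)) * (pw f A * G B) = _
    ring
  rw [e1, e.2.2, integral_integral_swap e.1]
  unfold ip
  congr 1
  funext γ'
  have e2 : (starRingEnd ℂ) (QQ ν (fun x => (starRingEnd ℂ) (f x)) H (ms γ')) =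
      ∫ γ, pw f (ms γ) * (starRingEnd ℂ) (H (ms γ + ms γ')) ∂(lam ν) := by
    unfold QQ
    rw [← integral_conj]
    congr 1
    funext γ
    rw [map_mul, add_comm (ms γ') (ms γ)]
    congr 1
    have := pw_conj (fun x => (starRingEnd ℂ) (f x)) (ms γ)
    simp only [Complex.conj_conj] at this
    exact this
  rw [e2, ← integral_mul_const]
  congr 1
  funext γ
  ring

theorem ip_conj (G H : Multiset X → ℂ) : (starRingEnd ℂ) (ip ν G H) = ip ν H G := by
  unfold ip
  rw [← integral_conj]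
  congr 1
  funext γ
  rw [map_mul, Complex.conj_conj, mul_comm]

theorem ip_self (G : Multiset X → ℂ) :
    ip ν G G = ((∫ γ, ‖G (ms γ)‖ ^ 2 ∂(lam ν) : ℝ) : ℂ) := by
  unfold ip
  rw [← integral_complex_ofReal]
  congr 1
  funext γ
  rw [RCLike.conj_mul]
  norm_cast

theorem nE_ip {G : Multiset X → ℂ} (hG : EB G) : nE ν G = ENNReal.ofReal (ip ν G G).re := by
  rw [ip_self, Complex.ofReal_re]
  have h1 : Integrable (fun γ => (starRingEnd ℂ) (G (ms γ)) * G (ms γ)) (lam ν) :=
    (lamS X ν).2.2.2.1 (fun S => (starRingEnd ℂ) (G S)) G (conj_eb hG) hG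
  have h2 : Integrable (fun γ => ‖G (ms γ)‖ ^ 2) (lam ν) := by
    have h3 := h1.norm
    refine h3.congr (Filter.Eventually.of_forall fun γ => ?_)
    simp only [norm_mul, RCLike.norm_conj]
    ring
  rw [ofReal_integral_eq_lintegral_ofReal h2
    (Filter.Eventually.of_forall fun γ => by positivity)]
  unfold nE
  congr 1
  funext γ
  rw [← ofReal_norm, ENNReal.ofReal_pow (norm_nonneg _)]

end

/-- CB-W2 -/
theorem main (hAD : S_AD) (hW : S_W1) : S_W2 := by
  intro X _ ν _ w F hw hwb hF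
  obtain ⟨K, hK⟩ := hwb
  have hwc : Measurable (fun x => (starRingEnd ℂ) (w x)) :=
    Complex.continuous_conj.measurable.comp hw
  have hwcb : ∃ K : ℝ, ∀ x, ‖(starRingEnd ℂ) (w x)‖ ≤ K :=
    ⟨K, fun x => by rw [RCLike.norm_conj]; exact hK x⟩
  have hwn : Measurable (fun x => -(starRingEnd ℂ) (w x)) := hwc.neg
  have hwnb' : ∀ x, ‖-(starRingEnd ℂ) (w x)‖ ≤ K :=
    fun x => by rw [norm_neg, RCLike.norm_conj]; exact hK x
  have hwnb : ∃ K : ℝ, ∀ x, ‖-(starRingEnd ℂ) (w x)‖ ≤ K := ⟨K, hwnb'⟩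
  -- G = Q_{-conj w} F
  obtain ⟨G, hGdef⟩ : ∃ G : Multiset X → ℂ, G = QQ ν (fun x => -(starRingEnd ℂ) (w x)) F :=
    ⟨_, rfl⟩
  have hG : EB G := by
    obtain ⟨C, c, _, _, h⟩ := (hW X ν).1 F hF K
    rw [hGdef]
    exact (h _ hwn hwnb').2.1
  have hPG : EB (PP w G) := by
    obtain ⟨C, c, _, _, h⟩ := (hW X ν).1 G hG K
    exact (h _ hw hK).1
  have hDF : EB (DD ν w F) := by
    obtain ⟨C, c, _, _, h⟩ := (hW X ν).1 F hF K
    exact (h _ hw hK).2.2.1
  have hQG : QQ ν (fun x => (starRingEnd ℂ) (w x)) G = F := by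
    funext S
    rw [hGdef, qq_qq ν hAD hwc hwcb hwn hwnb hF]
    simp only [add_neg_cancel]
    exact qq_zero ν F S
  obtain ⟨c, hc⟩ : ∃ c : ℝ, c = ∫ x, ‖w x‖ ^ 2 ∂ν := ⟨_, rfl⟩
  have hcc : ∫ x, (starRingEnd ℂ) (w x) * w x ∂ν = (c : ℂ) := by
    rw [hc, ← integral_complex_ofReal]
    congr 1
    funext x
    rw [RCLike.conj_mul]
    norm_cast
  have hQP : QQ ν (fun x => (starRingEnd ℂ) (w x)) (PP w G) =
      fun S => Complex.exp c * PP w F S := by
    funext S
    rw [qq_pp ν hAD hw ⟨K, hK⟩ hwc hwcb hG, hcc, hQG]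
  have h1 : ip ν (PP w G) (PP w G) = Complex.exp c * ip ν F F := by
    rw [ip_pp ν hAD hw ⟨K, hK⟩ hG hPG, hQP]
    have h2 : ip ν G (fun S => Complex.exp c * PP w F S) =
        Complex.exp c * ip ν G (PP w F) := by
      unfold ip
      rw [← integral_const_mul]
      congr 1
      funext γ
      rw [map_mul, ← Complex.exp_conj, Complex.conj_ofReal]
      ring
    rw [h2, ← ip_conj, ip_pp ν hAD hw ⟨K, hK⟩ hF hG, hQG, ip_conj]
  have h3 : ip ν (DD ν w F) (DD ν w F) = ip ν F F := by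
    have h4 : ip ν (DD ν w F) (DD ν w F) = Complex.exp (-c) * ip ν (PP w G) (PP w G) := by
      unfold ip
      rw [← integral_const_mul]
      congr 1
      funext γ
      unfold DD
      rw [← hc, ← hGdef, map_mul, ← Complex.exp_conj, map_div₀, map_neg, Complex.conj_ofReal]
      have h5 : (starRingEnd ℂ) 2 = 2 := Complex.conj_ofNat 2
      rw [h5]
      have h6 : Complex.exp (-(c : ℂ)) = Complex.exp (-(c : ℂ) / 2) * Complex.exp (-(c : ℂ) / 2) := by
        rw [← Complex.exp_add]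
        congr 1
        ring
      rw [h6]
      ring
    rw [h4, h1, ← mul_assoc, ← Complex.exp_add]
    simp
  rw [nE_ip ν hDF, nE_ip ν hF, h3]

end

end Pool.Agent.W174.CB
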